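import Pool.Agent.helper12.LE.SpecB

set_option autoImplicit false

namespace Pool.Agent.LE

open Pool.Agent.helper58.DC Pool.Agent.DI Pool.Agent.GR Pool.Agent.OB Pool.Agent.DR Pool.Agent.FI Pool.Agent.FI3 Pool.Agent.FI4 Pool.Agent.FI4C Pool.Agent.FI4B

theorem KZJ_ZK {G : Type} [Group G] [Finite G] (M : Ideal (integralClosure ℤ ℂ)) (θ : G → ℂ) (ε : G → ℤ) (K : Subgroup G)
    [Fintype K] (ψ : G → ℂ) (u : G) :
    ZK M θ ε K ψ u = ∑ k : K, (ε (u * k) : ℂ) * dd M (Cz (⊤ : Subgroup G) (u * k)) θ ψ (u * k) := by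
  have h1 : ZK M θ ε K ψ u = ∑ᶠ k : K, (ε (u * k) : ℂ) * dd M (Cz (⊤ : Subgroup G) (u * k)) θ ψ (u * k) :=
    (finsum_set_coe_eq_finsum_mem (f := fun k : G => (ε (u * k) : ℂ) * dd M (Cz (⊤ : Subgroup G) (u * k)) θ ψ (u * k)) (K : Set G)).symm
  rw [h1, finsum_eq_sum_of_fintype]

theorem KZJ (hDPX : DPX_stmt) : KZJ_stmt := by
  classical
  intro p M hS hp2 G _ _ D x θ χ lo ε hε h g K u hK ψ hψ ζ hζ
  have hp := hS.pr
  haveI : Fact p.Prime := ⟨hp⟩
  letI : Fintype K := Fintype.ofFinite K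
  have hpg : IsPGroup p D := lo.rt.dfa.pgrp
  have hcomm := lo.rt.com
  obtain ⟨a, ha⟩ := (IsPGroup.iff_card).1 hpg
  have hn : 0 < p * Nat.card D := Nat.mul_pos hp.pos Nat.card_pos
  have hone : ∀ v ∈ D, v ^ (p * Nat.card D) = 1 := by
    intro v hv
    have h1 : (⟨v, hv⟩ : D) ^ Nat.card D = 1 := pow_card_eq_one'
    have h2 : v ^ Nat.card D = 1 := congrArg (Subtype.val) h1
    rw [mul_comm, pow_mul, h2, one_pow]
  have hcop : ∀ s : ℕ, ¬ p ∣ s → s.Coprime (p * Nat.card D) := by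
    intro s hs
    have h1 : s.Coprime p := ((Nat.Prime.coprime_iff_not_dvd hp).2 hs).symm
    rw [ha]
    exact h1.mul_right (h1.pow_right a)
  have hex : ∀ k : K, ∃ P : Polynomial ℤ, ∀ s : ℕ, s.Coprime (p * Nat.card D) →
      dd M (Cz (⊤ : Subgroup G) ((u * k) ^ s)) θ ψ ((u * k) ^ s) = Polynomial.aeval (ζ ^ s) P := fun k =>
    hDPX G M ⊤ θ ψ hψ (u * k) (Subgroup.mem_top _) (p * Nat.card D) hn
      (hone _ (D.mul_mem hK.mem (hK.le k.2))) ζ hζ
  choose P hP using hex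
  refine ⟨∑ k : K, Polynomial.C (ε (u * k)) * P k, ?_⟩
  intro s hs
  have hcK : (Nat.card K).Coprime s := by
    have h1 : Nat.card K ∣ Nat.card D := Subgroup.card_dvd_of_le hK.le
    have h2 : s.Coprime (Nat.card D) := Nat.Coprime.coprime_dvd_right (Dvd.intro_left _ rfl) (hcop s hs)
    exact (Nat.Coprime.coprime_dvd_right h1 h2).symm
  rw [KZJ_ZK, ← Equiv.sum_comp (powCoprime hcK), map_sum]
  refine Finset.sum_congr rfl (fun k _ => ?_)
  have h1 : u ^ s * (((powCoprime hcK) k : K) : G) = (u * k) ^ s := by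
    have h2 : Commute u (k : G) := hcomm u hK.mem k (hK.le k.2)
    rw [h2.mul_pow]
    rfl
  rw [h1, hP k s (hcop s hs), hε.pw _ (hK.reg k k.2) s hs]
  simp

end Pool.Agent.LE
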