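import Pool.Agent.helper83.LE.SpecB

set_option autoImplicit false

namespace Pool.Agent.LE

open Pool.Agent.helper58.DC Pool.Agent.DI Pool.Agent.GR Pool.Agent.OB Pool.Agent.DR Pool.Agent.FI Pool.Agent.FI3 Pool.Agent.FI4 Pool.Agent.FI4C

theorem BIG_lvprod {D : Type} [CommGroup D] {N : ℕ} (w : Fin N → (D →* ℂˣ)) (u : D) (S : Finset (Fin N)) :
    lv (∏ i ∈ S, w i) u = ∏ i ∈ S, lv (w i) u := by
  classical
  induction S using Finset.induction_on with
  | empty => simp [lv_hone]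
  | insert a s ha ih => rw [Finset.prod_insert ha, Finset.prod_insert ha, lv_hmul, ih]

theorem BIG_exp {D : Type} [CommGroup D] {N : ℕ} (w : Fin N → (D →* ℂˣ)) (u : D) :
    ∏ i, (1 - lv (w i) u) = ∑ S : Finset (Fin N), (-1 : ℂ) ^ S.card * lv (∏ i ∈ S, w i) u := by
  classical
  have h1 : ∏ i, (1 - lv (w i) u) = ∏ i : Fin N, ((- lv (w i) u) + 1) := by
    refine Finset.prod_congr rfl (fun i _ => by ring)
  rw [h1, Finset.prod_add]
  rw [Finset.powerset_univ]
  refine Finset.sum_congr rfl (fun S _ => ?_)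
  rw [Finset.prod_const_one, mul_one, BIG_lvprod]
  have h2 : ∏ i ∈ S, (- lv (w i) u) = ∏ i ∈ S, ((-1) * lv (w i) u) := by
    refine Finset.prod_congr rfl (fun i _ => by ring)
  rw [h2, Finset.prod_mul_distrib, Finset.prod_const]

theorem BIG_fh {D : Type} [CommGroup D] [Fintype D] {N : ℕ} (g : D → ℂ) (w : Fin N → (D →* ℂˣ)) (l : D →* ℂˣ) :
    (∑ u, g u * (starRingEnd ℂ) (lv l u * ∏ i, (1 - lv (w i) u))) / Nat.card D =
      ∑ S : Finset (Fin N), (-1 : ℂ) ^ S.card * fh g (l * ∏ i ∈ S, w i) := by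
  classical
  have h1 : ∀ u, g u * (starRingEnd ℂ) (lv l u * ∏ i, (1 - lv (w i) u)) =
      ∑ S : Finset (Fin N), (-1 : ℂ) ^ S.card * (g u * (starRingEnd ℂ) (lv (l * ∏ i ∈ S, w i) u)) := by
    intro u
    rw [BIG_exp, Finset.mul_sum, map_sum, Finset.mul_sum]
    refine Finset.sum_congr rfl (fun S _ => ?_)
    rw [lv_hmul]
    simp only [map_mul, map_pow, map_neg, map_one]
    ring
  simp only [h1]
  rw [Finset.sum_comm, Finset.sum_div]
  refine Finset.sum_congr rfl (fun S _ => ?_)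
  rw [← Finset.mul_sum, mul_div_assoc]
  rfl

theorem BIG (hFOU : FOU_stmt) (hPER : PER_stmt) (hDIS : DIS_stmt) : BIG_stmt := by
  classical
  intro D _ _ N n C g hn h1 h2 h3 h4 h5
  haveI : Finite (D →* ℂˣ) := by
    obtain ⟨e⟩ := CommGroup.monoidHom_mulEquiv_of_hasEnoughRootsOfUnity D ℂ
    exact Finite.of_equiv _ e.symm.toEquiv
  letI : Fintype (D →* ℂˣ) := Fintype.ofFinite _
  by_contra hcon
  push_neg at hcon
  obtain ⟨hF1, hF2, -⟩ := hFOU D g
  have hD0 : (0 : ℝ) < Nat.card D := by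
    exact_mod_cast Nat.card_pos
  have hDC : (Nat.card D : ℂ) ≠ 0 := by
    have : Nat.card D ≠ 0 := Nat.card_pos.ne'
    exact_mod_cast this
  have hP : ∀ i, (Finset.univ.filter (fun w : D →* ℂˣ => ∀ u ∈ C i, w u = 1)).card = (C i).index := by
    intro i
    rw [← (hPER D (C i)).1, Nat.card_eq_fintype_card, Fintype.card_subtype]
  have key : ∀ w : Fin N → (D →* ℂˣ), (∀ i, w i ∈ Finset.univ.filter (fun w : D →* ℂˣ => ∀ u ∈ C i, w u = 1)) →
      ∀ l, ∑ S : Finset (Fin N), (-1 : ℂ) ^ S.card * fh g (l * ∏ i ∈ S, w i) = 0 := by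
    refine hDIS (D →* ℂˣ) N n (fun i => Finset.univ.filter (fun w : D →* ℂˣ => ∀ u ∈ C i, w u = 1)) (fh g) hn ?_ ?_ ?_ hcon
    · intro i
      rw [hP i]
      exact h1 i
    · rw [hF1, div_le_iff₀ hD0]
      exact h3
    · intro w hw l
      obtain ⟨m, hm⟩ := h4 l w (fun i => (Finset.mem_filter.1 (hw i)).2)
      refine ⟨m, ?_⟩
      rw [← BIG_fh, hm, mul_div_assoc, mul_comm, div_mul_cancel₀ _ hDC]
  obtain ⟨u, hu⟩ := h5
  have huC : ∀ i, u ∉ C i := fun i hi => hu (h2 u ⟨i, hi⟩)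
  choose w hw1 hw2 using fun i => (hPER D (C i)).2 u (huC i)
  have h6 := key w (fun i => Finset.mem_filter.2 ⟨Finset.mem_univ _, hw1 i⟩)
  obtain ⟨-, hG, -⟩ := hFOU D (fun u => g u * (starRingEnd ℂ) (∏ i, (1 - lv (w i) u)))
  have h7 := hG (by
    intro l
    have e1 := BIG_fh g w l
    rw [h6 l] at e1
    rw [← e1]
    unfold fh
    congr 1
    refine Finset.sum_congr rfl (fun v _ => ?_)
    rw [map_mul]
    ring) u
  have h8 : (starRingEnd ℂ) (∏ i, (1 - lv (w i) u)) ≠ 0 := by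
    rw [Ne, map_eq_zero, Finset.prod_eq_zero_iff]
    rintro ⟨i, -, hi⟩
    apply hw2 i
    have : lv (w i) u = 1 := by
      linear_combination -hi
    exact Units.ext (by simpa [lv] using this)
  exact (mul_ne_zero hu h8) h7

end Pool.Agent.LE
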